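import Pool.Agent.helper37.NF.Spec
import Pool.Agent.helper55.NK.Base

/-!
# MO4: monotonicity of `M(n,t)` in `t` for `4 t ≤ n` (after Pool/Agent/helper35/NK/MON.lean)
-/

set_option autoImplicit false

namespace Pool.Agent.helper37.NF

open Finset Pool.Agent.NK

theorem MO4_mono (N r : ℕ) (d : ℕ) (h : 2 * (r + d) ≤ N) : N.choose r ≤ N.choose (r + d) := by
  induction d with
  | zero => exact le_rfl
  | succ d ih =>
    have h1 := ih (by omega)
    have h2 : N.choose (r + d) ≤ N.choose (r + d + 1) :=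
      Nat.choose_le_succ_of_lt_half_left (by omega)
    exact h1.trans h2

theorem MO4 : MO4_stmt := by
  intro n s t hs hst hn
  unfold MV
  have hq : (n + 1) / s ≤ (n + 1) / 2 := Nat.div_le_div_left hs (by norm_num)
  obtain ⟨q, hqd⟩ : ∃ q, q = (n + 1) / s := ⟨_, rfl⟩
  rw [← hqd] at hq ⊢
  obtain ⟨d, hd⟩ : ∃ d, t - 1 = (s - 1) + d := ⟨t - s, by omega⟩
  have h1 : (n - q).choose (s - 1) ≤ (n - q).choose (t - 1) := by
    rw [hd]
    apply MO4_mono
    rw [← hd]
    omega
  calc q * (n - q).choose (s - 1) ≤ q * (n - q).choose (t - 1) := Nat.mul_le_mul_left _ h1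
    _ ≤ _ := Pool.Agent.NK.Base.block_le n t (by omega) (by omega) q

end Pool.Agent.helper37.NF
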